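import Mathlib
import Pool.Agent.Helper96.LB3.Stmts

/-!
LB3, row CL: the planar lemma.   [helper51]
-/

open MeasureTheory Module
open scoped ENNReal

namespace Pool.Agent.Helper51.LB3

open Pool.Agent.Helper96.LB3

theorem st_CL (hA : ST_CLA) (hB : ST_CLB) (hC : ST_CLC) : ST_CL := by
  intro E _ g1 g2 Ap Am A0 r hr hSp hSm hS0 hsum hp1 hp2 hm1 hm2
  have hr0 : 0 < r := lt_of_lt_of_le one_pos hr
  have hri : 0 < r⁻¹ := inv_pos.2 hr0
  have hSp' : Sym (fun e => g1 e * r) (fun e => g2 e * r⁻¹) Ap := by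
    intro e
    obtain ⟨e', h1, h2, h3⟩ := hSp e
    exact ⟨e', by show g1 e' * r = -(g1 e * r); rw [h1]; ring,
      by show g2 e' * r⁻¹ = -(g2 e * r⁻¹); rw [h2]; ring, h3⟩
  have hSm' : Sym (fun e => g1 e * r⁻¹) (fun e => g2 e * r) Am := by
    intro e
    obtain ⟨e', h1, h2, h3⟩ := hSm e
    exact ⟨e', by show g1 e' * r⁻¹ = -(g1 e * r⁻¹); rw [h1]; ring,
      by show g2 e' * r = -(g2 e * r); rw [h2]; ring, h3⟩
  have h0 : ∀ e, g2 e = 0 → |g1 e| ≤ A0 e := by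
    intro e he
    have key1 : |g1 e| * r ≤ Ap e := by
      obtain ⟨p, hp, hp1'⟩ := hp1
      obtain ⟨e', h1, h2, h3⟩ := hSp e
      have h4 := hp.2.2 e
      have h5 := hp.2.2 e'
      simp only [he, hp1', h1, h2, h3] at h4 h5
      have h6 : g1 e * r ≤ Ap e := by linarith
      have h7 : -(g1 e) * r ≤ Ap e := by linarith
      rcases abs_cases (g1 e) with ⟨h8, _⟩ | ⟨h8, _⟩
      · rw [h8]; exact h6
      · rw [h8]; exact h7
    have key2 : |g1 e| * r⁻¹ ≤ Am e := by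
      obtain ⟨p, hp, hp1'⟩ := hm1
      obtain ⟨e', h1, h2, h3⟩ := hSm e
      have h4 := hp.2.2 e
      have h5 := hp.2.2 e'
      simp only [he, hp1', h1, h2, h3] at h4 h5
      have h6 : g1 e * r⁻¹ ≤ Am e := by linarith
      have h7 : -(g1 e) * r⁻¹ ≤ Am e := by linarith
      rcases abs_cases (g1 e) with ⟨h8, _⟩ | ⟨h8, _⟩
      · rw [h8]; exact h6
      · rw [h8]; exact h7
    have h9 := hsum e
    have h10 : (r + r⁻¹) * |g1 e| ≤ (r + r⁻¹) * A0 e := by nlinarith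
    exact le_of_mul_le_mul_left h10 (by positivity)
  have e1 := hA E _ _ Ap hSp' hp1
  have e2 := hA E _ _ Am hSm' hm1
  have e3 := hB E g1 g2 A0 hS0 h0
  have e4 := hC E g1 g2 Ap Am A0 r hr hsum hp2 hm2
  rw [e1, e2]
  linarith

end Pool.Agent.Helper51.LB3
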