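import Mathlib
import Pool.Agent.Helper96.LB3.Stmts

/-!
LB3, row PRP: proportional heights give equality.   [helper51]
-/

open MeasureTheory Module
open scoped ENNReal Pointwise

namespace Pool.Agent.Helper51.LB3

open Pool.Agent.Helper96.LB3

theorem VS_smul {X ι : Type} [NormedAddCommGroup X] [NormedSpace ℝ X] [FiniteDimensional ℝ X]
    [MeasurableSpace X] [BorelSpace X] (μ : Measure X) [μ.IsAddHaarMeasure]
    (φ : ι → X →ₗ[ℝ] ℝ) (t : ℝ) (ht : 0 < t) (h : ι → ℝ) :
    VS μ φ (fun u => t * h u) = t ^ (finrank ℝ X) * VS μ φ h := by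
  have h1 : KS φ (fun u => t * h u) = t • KS φ h := by
    ext x
    rw [Set.mem_smul_set_iff_inv_smul_mem₀ ht.ne']
    constructor
    · intro hx u
      have h2 := hx u
      rw [map_smul, smul_eq_mul, abs_mul, abs_inv, abs_of_pos ht, inv_mul_le_iff₀ ht]
      exact h2
    · intro hx u
      have h2 := hx u
      rw [map_smul, smul_eq_mul, abs_mul, abs_inv, abs_of_pos ht, inv_mul_le_iff₀ ht] at h2
      exact h2
  unfold VS
  rw [h1, measureReal_def, Measure.addHaar_smul, ENNReal.toReal_mul,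
    ENNReal.toReal_ofReal (abs_nonneg _), abs_of_pos (pow_pos ht _), ← measureReal_def]

theorem st_PRP : ST_PRP := by
  intro X ι _ _ _ _ _ μ _ _ φ hp hm hp0 hm0 hprop
  obtain ⟨c, hc⟩ := hprop
  rcases isEmpty_or_nonempty ι with hι | ⟨⟨u0⟩⟩
  · have h1 : hp = gm hp hm := Subsingleton.elim _ _
    have h2 : hm = gm hp hm := Subsingleton.elim _ _
    have h3 : VS μ φ hp = VS μ φ (gm hp hm) := by rw [← h1]
    have h4 : VS μ φ hm = VS μ φ (gm hp hm) := by rw [← h2]
    rw [h3, h4, sq]
  · have hc0 : 0 < c := by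
      have h1 := hc u0
      have h2 := hp0 u0
      rw [h1] at h2
      exact (mul_pos_iff_of_pos_right (hm0 u0)).1 h2
    have h1 : hp = fun u => c * hm u := funext hc
    have h2 : gm hp hm = fun u => √c * hm u := by
      funext u
      show √(hp u * hm u) = √c * hm u
      rw [hc u, mul_assoc, Real.sqrt_mul hc0.le, Real.sqrt_mul_self (hm0 u).le]
    have h3 : (√c ^ finrank ℝ X) ^ 2 = c ^ finrank ℝ X := by
      rw [← pow_mul, mul_comm, pow_mul, Real.sq_sqrt hc0.le]
    rw [h2, VS_smul μ φ (√c) (Real.sqrt_pos.2 hc0) hm, h1, VS_smul μ φ c hc0 hm, mul_pow, h3]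
    ring

end Pool.Agent.Helper51.LB3
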